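import Pool.Agent.Y674.TR.Stm2

/-! Doubling (job TR2-DBL of helper674, by helper891; the computation of `2 • P` follows
`Pool.Agent.Y876.TR.core`). -/

set_option autoImplicit false

namespace Pool.Agent.Y891.TR

open WeierstrassCurve Polynomial Pool.Agent.Y674.TR

theorem core {F : Type*} [Field F] [CharZero F] [DecidableEq F] {W : Affine F} {A B : F}
    (h1 : W.a₁ = 0) (h2 : W.a₂ = 0) (h3 : W.a₃ = 0) (h4 : W.a₄ = A) (h6 : W.a₆ = B)
    {X Y : F} (h : W.Nonsingular X Y) :
    Y ^ 2 = X ^ 3 + A * X + B ∧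
    ((Y = 0 ∧ 3 * X ^ 2 + A ≠ 0 ∧ (2 : ℕ) • (Affine.Point.some X Y h) = 0) ∨
      (Y ≠ 0 ∧ ∃ (l X2 Y2 : F) (hns : W.Nonsingular X2 Y2),
        (2 : ℕ) • (Affine.Point.some X Y h) = Affine.Point.some X2 Y2 hns ∧
        2 * Y * l = 3 * X ^ 2 + A ∧ X2 = l ^ 2 - 2 * X)) := by
  have h20 : (2 : F) ≠ 0 := two_ne_zero
  have heq : Y ^ 2 = X ^ 3 + A * X + B := by
    have := (W.equation_iff X Y).1 h.1
    rw [h1, h2, h3, h4, h6] at this
    linear_combination this
  have hneg : ∀ a b : F, W.negY a b = -b := fun a b => by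
    rw [Affine.negY, h1, h3]
    ring
  refine ⟨heq, ?_⟩
  by_cases hY : Y = 0
  · left
    refine ⟨hY, ?_, ?_⟩
    · have hns := (W.nonsingular_iff X Y).1 h
      rw [h1, h2, h3, h4, hY] at hns
      rcases hns.2 with h5 | h5
      · intro h6'
        apply h5
        linear_combination -h6'
      · exact absurd (by ring) h5
    · rw [two_nsmul]
      exact Affine.Point.add_self_of_Y_eq (by rw [hneg, hY, neg_zero])
  · right
    refine ⟨hY, ?_⟩
    have hYn : Y ≠ W.negY X Y := by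
      rw [hneg]
      intro h5
      have : 2 * Y = 0 := by linear_combination h5
      rcases mul_eq_zero.1 this with h6' | h6'
      · exact h20 h6'
      · exact hY h6'
    set l := (3 * X ^ 2 + A) / (2 * Y) with hl
    have hsl : W.slope X X Y Y = l := by
      rw [Affine.slope_of_Y_ne rfl hYn, hneg, h1, h2, h4, hl]
      congr 1 <;> ring
    have hlY : 2 * Y * l = 3 * X ^ 2 + A := by
      rw [hl]
      field_simp
    set X2 := l ^ 2 - 2 * X with hX2
    set Y2 := -(l * (X2 - X) + Y) with hY2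
    have hx2 : W.addX X X (W.slope X X Y Y) = X2 := by
      rw [hsl, Affine.addX, h1, h2, hX2]
      ring
    have hy2 : W.addY X X Y (W.slope X X Y Y) = Y2 := by
      rw [Affine.addY, Affine.negAddY, hneg, hx2, hsl, hY2]
    obtain ⟨hns, hadd⟩ : ∃ hns : W.Nonsingular X2 Y2,
        Affine.Point.some X Y h + Affine.Point.some X Y h = Affine.Point.some X2 Y2 hns := by
      rw [Affine.Point.add_self_of_Y_ne hYn]
      refine ⟨?_, ?_⟩
      · rw [← hx2, ← hy2]
        exact Affine.nonsingular_add h h fun hxy => hYn hxy.right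
      · congr 1
    exact ⟨l, X2, Y2, hns, by rw [two_nsmul, hadd], hlY, hX2⟩

/-- **DBL** -/
theorem dbl : DBL := by
  intro K _ _ _ A B _ P a b hP
  rcases hP with ⟨rfl, ha, rfl⟩ | ⟨hb, x, y, h, rfl, rfl⟩
  · left
    refine ⟨?_, ?_, ?_⟩
    · rw [← Affine.Point.zero_def, smul_zero]
    · have : a ^ 4 - 2 * (A : K) * a ^ 2 * 0 ^ 2 - 8 * (B : K) * a * 0 ^ 3 +
          (A : K) ^ 2 * 0 ^ 4 = a ^ 4 := by ring
      rw [this]
      exact pow_ne_zero 4 ha
    · ring
  · obtain ⟨heq, hc⟩ := core (W := Pool.Agent.Y674.TR.E K A B) (A := (A : K)) (B := (B : K))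
      rfl rfl rfl rfl rfl h
    rcases hc with ⟨hy, hd, h2⟩ | ⟨hy, l, X2, Y2, hns, h2, hl, hX2⟩
    · left
      refine ⟨?_, ?_, ?_⟩
      · rw [h2]
        exact (Affine.Point.zero_def).symm
      · have h5 : (x * b) ^ 4 - 2 * (A : K) * (x * b) ^ 2 * b ^ 2 - 8 * (B : K) * (x * b) * b ^ 3 +
            (A : K) ^ 2 * b ^ 4 = b ^ 4 * (3 * x ^ 2 + A) ^ 2 := by
          rw [hy] at heq
          linear_combination (8 * x * b ^ 4) * heq
        rw [h5]
        exact mul_ne_zero (pow_ne_zero 4 hb) (pow_ne_zero 2 hd)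
      · rw [hy] at heq
        linear_combination (-4 * b ^ 4) * heq
    · right
      refine ⟨?_, X2, Y2, hns, h2, ?_⟩
      · have h5 : 4 * b * ((x * b) ^ 3 + (A : K) * (x * b) * b ^ 2 + (B : K) * b ^ 3) =
            4 * b ^ 4 * y ^ 2 := by
          rw [heq]
          ring
        rw [h5]
        exact mul_ne_zero (mul_ne_zero (by norm_num) (pow_ne_zero 4 hb)) (pow_ne_zero 2 hy)
      · have h5 : 4 * b * ((x * b) ^ 3 + (A : K) * (x * b) * b ^ 2 + (B : K) * b ^ 3) =
            4 * b ^ 4 * y ^ 2 := by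
          rw [heq]
          ring
        rw [h5, hX2]
        have h7 : (2 * y * l) ^ 2 = (3 * x ^ 2 + A) ^ 2 := by rw [hl]
        linear_combination (-b ^ 4) * h7 + (8 * x * b ^ 4) * heq

end Pool.Agent.Y891.TR
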